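import Mathlib

/-! # MP_698df0_al: Buchberger's algorithm over the integers with S-polynomials is not correct -/

set_option autoImplicit false

namespace Pool.Agent.Results.MP_698df0_al.AlgorithmPrime

open MvPolynomial

/-- The position of an integer in the list `0, -1, 1, -2, 2, -3, 3, ...`. -/
def rk (a : ℤ) : ℕ := if 0 < a then 2 * a.natAbs else 2 * a.natAbs - 1

/-- The order `0 ≺ -1 ≺ 1 ≺ -2 ≺ 2 ≺ -3 ≺ 3 ≺ ...` of the integers. -/
def Prec (a b : ℤ) : Prop := rk a < rk b

instance (a b : ℤ) : Decidable (Prec a b) := inferInstanceAs (Decidable (rk a < rk b))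

/-- The function `M(a, c)`. -/
def M (a c : ℤ) : ℤ :=
  if _h : 0 < a * c ∧ Prec (a - c) a then M (a - c) c + 1
  else if _h : a * c < 0 ∧ Prec (a + c) a then M (a + c) c - 1
  else 0
termination_by rk a
decreasing_by
  · exact _h.2
  · exact _h.2

/-- The function `L(c)`. -/
def L (c : ℤ) : ℤ := if Even c then |c| / 2 else -((|c| + 1) / 2)

/-- `LCR(c₁, c₂)`, the maximum of `L(c₁)` and `L(c₂)` in the order `≺`. -/
def LCR (c₁ c₂ : ℤ) : ℤ := if Prec (L c₁) (L c₂) then L c₂ else L c₁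

variable {n : ℕ} (m : MonomialOrder (Fin n))

/-- The reduction relation `g → h` modulo `F`. -/
def Red (F : Finset (MvPolynomial (Fin n) ℤ)) (g h : MvPolynomial (Fin n) ℤ) : Prop :=
  ∃ f ∈ F, ∃ (b : ℤ) (u : Fin n →₀ ℕ), f ≠ 0 ∧ coeff (u + m.degree f) g ≠ 0 ∧
    Prec (coeff (u + m.degree f) g - b * m.leadingCoeff f) (coeff (u + m.degree f) g) ∧
    h = g - monomial u b * f

/-- `h` is irreducible modulo `F` and can be reached from `g`. -/
def IsNF (F : Finset (MvPolynomial (Fin n) ℤ)) (g h : MvPolynomial (Fin n) ℤ) : Prop :=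
  Relation.ReflTransGen (Red m F) g h ∧ ∀ h', ¬ Red m F h h'

/-- Normal form algorithms. -/
def IsNormalFormAlgorithm
    (S : Finset (MvPolynomial (Fin n) ℤ) → MvPolynomial (Fin n) ℤ → MvPolynomial (Fin n) ℤ) :
    Prop :=
  ∀ F g, IsNF m F g (S F g)

/-- Gröbner bases: every polynomial has exactly one irreducible element reachable from it. -/
def IsGroebner (F : Finset (MvPolynomial (Fin n) ℤ)) : Prop := ∀ g, ∃! h, IsNF m F g h

/-- The first component `a U - M(a, c₁) u₁ f₁` of the critical pair of `f₁, f₂`. -/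
noncomputable def crit₁ (f₁ f₂ : MvPolynomial (Fin n) ℤ) : MvPolynomial (Fin n) ℤ :=
  monomial (m.degree f₁ ⊔ m.degree f₂) (LCR (m.leadingCoeff f₁) (m.leadingCoeff f₂)) -
    monomial (m.degree f₁ ⊔ m.degree f₂ - m.degree f₁)
      (M (LCR (m.leadingCoeff f₁) (m.leadingCoeff f₂)) (m.leadingCoeff f₁)) * f₁

/-- The second component `a U - M(a, c₂) u₂ f₂` of the critical pair of `f₁, f₂`. -/
noncomputable def crit₂ (f₁ f₂ : MvPolynomial (Fin n) ℤ) : MvPolynomial (Fin n) ℤ :=
  monomial (m.degree f₁ ⊔ m.degree f₂) (LCR (m.leadingCoeff f₁) (m.leadingCoeff f₂)) -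
    monomial (m.degree f₁ ⊔ m.degree f₂ - m.degree f₂)
      (M (LCR (m.leadingCoeff f₁) (m.leadingCoeff f₂)) (m.leadingCoeff f₂)) * f₂

/-- The states `(G, B)` of the algorithm. -/
structure State (n : ℕ) where
  /-- the current set of polynomials -/
  G : Finset (MvPolynomial (Fin n) ℤ)
  /-- the pairs which are still to be considered -/
  B : Set (Sym2 (MvPolynomial (Fin n) ℤ))

/-- The initial state: all pairs of different elements of `F`. -/
def init (F : Finset (MvPolynomial (Fin n) ℤ)) : State n :=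
  ⟨F, {z | ∃ f ∈ F, ∃ g ∈ F, f ≠ g ∧ z = s(f, g)}⟩

open Classical in
/-- One step of Algorithm A': a pair `{f₁, f₂}` is removed from `B`, and if the normal form `h` of
the S-polynomial `p₁ - p₂` is not zero, `h` is added to `G` and the pairs `{g, h}` to `B`. -/
def Step (S : Finset (MvPolynomial (Fin n) ℤ) → MvPolynomial (Fin n) ℤ → MvPolynomial (Fin n) ℤ)
    (s s' : State n) : Prop :=
  ∃ f₁ f₂ h, s(f₁, f₂) ∈ s.B ∧ h = S s.G (crit₁ m f₁ f₂ - crit₂ m f₁ f₂) ∧
    ((h = 0 ∧ s' = ⟨s.G, s.B \ {s(f₁, f₂)}⟩) ∨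
      (h ≠ 0 ∧ s' = ⟨insert h s.G, (s.B \ {s(f₁, f₂)}) ∪ {z | ∃ g ∈ s.G, z = s(g, h)}⟩))

/-- Correctness of Algorithm A' for the term order `m`: for every finite `F` and every normal form
algorithm, every run terminates, and the output of every run is a Gröbner basis of the ideal
generated by `F`. -/
def Correct : Prop :=
  ∀ (F : Finset (MvPolynomial (Fin n) ℤ))
    (S : Finset (MvPolynomial (Fin n) ℤ) → MvPolynomial (Fin n) ℤ → MvPolynomial (Fin n) ℤ),
    IsNormalFormAlgorithm m S →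
      (¬ ∃ s : ℕ → State n, s 0 = init F ∧ ∀ i, Step m S (s i) (s (i + 1))) ∧
      ∀ s : State n, Relation.ReflTransGen (Step m S) (init F) s → s.B = ∅ →
        IsGroebner m s.G ∧ Ideal.span (s.G : Set (MvPolynomial (Fin n) ℤ)) =
          Ideal.span (F : Set (MvPolynomial (Fin n) ℤ))

/-! ### Termination of the reduction -/

/-- the coefficients of a polynomial, indexed by the ordered synonym -/
noncomputable def cf (g : MvPolynomial (Fin n) ℤ) : m.syn →₀ ℤ :=
  Finsupp.onFinset (g.support.map m.toSyn.toEquiv.toEmbedding)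
    (fun d => coeff (m.toSyn.symm d) g) (by
      intro d hd
      rw [Finset.mem_map]
      exact ⟨m.toSyn.symm d, by rwa [mem_support_iff], by simp⟩)

lemma cf_apply (g : MvPolynomial (Fin n) ℤ) (d : m.syn) :
    cf m g d = coeff (m.toSyn.symm d) g := rfl

lemma prec_wf : WellFounded Prec := InvImage.wf rk Nat.lt_wfRel.wf

lemma not_prec_zero (a : ℤ) : ¬ Prec a 0 := by simp [Prec, rk]

lemma red_lex {F : Finset (MvPolynomial (Fin n) ℤ)} {g h : MvPolynomial (Fin n) ℤ}
    (H : Red m F g h) : Finsupp.Lex (fun x y : m.syn => y < x) Prec (cf m h) (cf m g) := by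
  obtain ⟨f, -, b, u, hf, hne, hp, rfl⟩ := H
  have hco : ∀ d, coeff (u + d) (monomial u b * f) = b * coeff d f := by
    intro d
    rw [coeff_monomial_mul]
  refine ⟨m.toSyn (u + m.degree f), fun d hd => ?_, ?_⟩
  · rw [cf_apply, cf_apply, coeff_sub]
    have h0 : coeff (m.toSyn.symm d) (monomial u b * f) = 0 := by
      rw [coeff_monomial_mul']
      split_ifs with hu
      · obtain ⟨e, he⟩ := exists_add_of_le hu
        rw [he, add_tsub_cancel_left, m.coeff_eq_zero_of_lt, mul_zero]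
        have h1 : m.toSyn u + m.toSyn (m.degree f) < m.toSyn u + m.toSyn e := by
          rw [← map_add, ← map_add, ← he]
          simpa using hd
        exact lt_of_add_lt_add_left h1
      · rfl
    rw [h0, sub_zero]
  · change Prec (cf m _ (m.toSyn (u + m.degree f))) (cf m _ (m.toSyn (u + m.degree f)))
    rw [cf_apply, cf_apply, coeff_sub]
    simp only [AddEquiv.symm_apply_apply]
    rw [hco]
    exact hp

lemma red_wf (F : Finset (MvPolynomial (Fin n) ℤ)) :
    WellFounded (fun h g : MvPolynomial (Fin n) ℤ => Red m F g h) := by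
  have h1 : WellFounded (Finsupp.Lex (fun x y : m.syn => y < x) Prec) := by
    refine Finsupp.Lex.wellFounded' (fun a => not_prec_zero a) prec_wf ?_
    exact wellFounded_lt
  exact Subrelation.wf (fun {h g} H => red_lex m H) (InvImage.wf (cf m) h1)

lemma exists_nf (F : Finset (MvPolynomial (Fin n) ℤ)) (g : MvPolynomial (Fin n) ℤ) :
    ∃ h, IsNF m F g h := by
  induction g using (red_wf m F).induction with
  | _ g ih =>
    by_cases hg : ∃ h, Red m F g h
    · obtain ⟨h, hh⟩ := hg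
      obtain ⟨k, hk1, hk2⟩ := ih h hh
      exact ⟨k, Relation.ReflTransGen.head hh hk1, hk2⟩
    · exact ⟨g, Relation.ReflTransGen.refl, fun h hh => hg ⟨h, hh⟩⟩

/-! ### The counterexample -/

open Classical in
/-- `F = {4, 10}` -/
noncomputable def F₀ (n : ℕ) : Finset (MvPolynomial (Fin n) ℤ) := {C 4, C 10}

lemma red_C (F : Finset (MvPolynomial (Fin n) ℤ)) (a b c : ℤ) (hc : c ≠ 0)
    (hF : (C c : MvPolynomial (Fin n) ℤ) ∈ F) (ha : a ≠ 0) (h : Prec (a - b * c) a) :
    Red m F (C a) (C (a - b * c)) := by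
  refine ⟨C c, hF, b, 0, ?_, ?_, ?_, ?_⟩
  · rwa [Ne, C_eq_zero]
  · rw [m.degree_C, add_zero, coeff_zero_C]; exact ha
  · rw [m.degree_C, add_zero, coeff_zero_C, m.leadingCoeff_C]; exact h
  · rw [map_sub, map_mul]; rfl

lemma irred_C {a : ℤ} (h4 : ∀ b : ℤ, ¬ Prec (a - b * 4) a) (h10 : ∀ b : ℤ, ¬ Prec (a - b * 10) a)
    (h' : MvPolynomial (Fin n) ℤ) : ¬ Red m (F₀ n) (C a) h' := by
  rintro ⟨f, hf, b, u, -, hne, hp, -⟩
  have hf' : f = C 4 ∨ f = C 10 := by simpa [F₀] using hf
  rcases hf' with rfl | rfl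
  · rw [m.degree_C, add_zero] at hne hp
    rw [m.leadingCoeff_C] at hp
    have hu : u = 0 := by
      by_contra hu
      exact hne (coeff_C_of_ne_zero hu a)
    subst hu
    rw [coeff_zero_C] at hp
    exact h4 b hp
  · rw [m.degree_C, add_zero] at hne hp
    rw [m.leadingCoeff_C] at hp
    have hu : u = 0 := by
      by_contra hu
      exact hne (coeff_C_of_ne_zero hu a)
    subst hu
    rw [coeff_zero_C] at hp
    exact h10 b hp

lemma irred_zero (h' : MvPolynomial (Fin n) ℤ) : ¬ Red m (F₀ n) 0 h' := by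
  rintro ⟨f, hf, b, u, -, hne, hp, -⟩
  exact hne (coeff_zero _)

lemma nf_zero : IsNF m (F₀ n) (C 6) 0 := by
  refine ⟨?_, irred_zero m⟩
  have h1 := red_C m (F₀ n) 6 1 10 (by norm_num) (by simp [F₀]) (by norm_num) (by decide)
  have h2 := red_C m (F₀ n) (6 - 1 * 10) (-1) 4 (by norm_num) (by simp [F₀]) (by norm_num)
    (by decide)
  have h3 : (C (6 - 1 * 10 - -1 * 4) : MvPolynomial (Fin n) ℤ) = 0 := by norm_num
  rw [h3] at h2
  exact Relation.ReflTransGen.head h1 (Relation.ReflTransGen.single h2)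

lemma nf_neg_two : IsNF m (F₀ n) (C 6) (C (-2)) := by
  refine ⟨?_, irred_C m ?_ ?_⟩
  · have h1 := red_C m (F₀ n) 6 1 4 (by norm_num) (by simp [F₀]) (by norm_num) (by decide)
    have h2 := red_C m (F₀ n) (6 - 1 * 4) 1 4 (by norm_num) (by simp [F₀]) (by norm_num)
      (by decide)
    have h3 : (C (6 - 1 * 4 - 1 * 4) : MvPolynomial (Fin n) ℤ) = C (-2) := by norm_num
    rw [h3] at h2
    exact Relation.ReflTransGen.head h1 (Relation.ReflTransGen.single h2)
  · intro b
    unfold Prec rk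
    split_ifs <;> omega
  · intro b
    unfold Prec rk
    split_ifs <;> omega

lemma not_groebner : ¬ IsGroebner m (F₀ n) := by
  intro h
  obtain ⟨k, -, hk⟩ := h (C 6)
  have h1 := hk _ (nf_zero m)
  have h2 := hk _ (nf_neg_two m)
  rw [← h1] at h2
  have h3 : (C (-2) : MvPolynomial (Fin n) ℤ) = C 0 := by rw [h2, C_0]
  have := C_injective (Fin n) ℤ h3
  norm_num at this

lemma M_five_four : M 5 4 = 1 := by
  have h0 : M (5 - 4) 4 = 0 := by
    rw [M, dif_neg (by decide), dif_neg (by decide)]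
  rw [M, dif_pos (by decide), h0, zero_add]

lemma M_five_ten : M 5 10 = 1 := by
  have h0 : M (5 - 10) 10 = 0 := by
    rw [M, dif_neg (by decide), dif_neg (by decide)]
  rw [M, dif_pos (by decide), h0, zero_add]

lemma LCR_eq : LCR 4 10 = 5 := by
  have h4 : L 4 = 2 := by
    rw [L, if_pos (by decide)]; norm_num
  have h10 : L 10 = 5 := by
    rw [L, if_pos (by decide)]; norm_num
  rw [LCR, h4, h10, if_pos (by decide)]

/-- The S-polynomial of `4` and `10` is `6`. -/
lemma spoly : crit₁ m (C 4 : MvPolynomial (Fin n) ℤ) (C 10) - crit₂ m (C 4) (C 10) = C 6 := by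
  unfold crit₁ crit₂
  rw [m.degree_C, m.degree_C, m.leadingCoeff_C, m.leadingCoeff_C, LCR_eq, M_five_four, M_five_ten]
  have h0 : ((0 : Fin n →₀ ℕ) ⊔ 0) = 0 := sup_idem 0
  rw [h0, tsub_self]
  change C 5 - C 1 * C 4 - (C 5 - C 1 * C 10) = C 6
  rw [← C_mul, ← C_mul, ← C_sub, ← C_sub, ← C_sub]
  norm_num

open Classical in
/-- The normal form algorithm. -/
noncomputable def S₀ (F : Finset (MvPolynomial (Fin n) ℤ)) (g : MvPolynomial (Fin n) ℤ) :
    MvPolynomial (Fin n) ℤ :=
  if F = F₀ n ∧ g = C 6 then 0 else (exists_nf m F g).choose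

lemma S₀_nf : IsNormalFormAlgorithm m (S₀ m) := by
  intro F g
  unfold S₀
  split_ifs with h
  · rw [h.1, h.2]
    exact nf_zero m
  · exact (exists_nf m F g).choose_spec

/-- For every number of variables and every term order, Algorithm A' is not correct. -/
theorem result (n : ℕ) (m : MonomialOrder (Fin n)) : ¬ Correct m := by
  intro h
  have hne : (C 4 : MvPolynomial (Fin n) ℤ) ≠ C 10 := by
    intro h
    have := C_injective (Fin n) ℤ h
    norm_num at this
  refine not_groebner m ((h (F₀ n) (S₀ m) (S₀_nf m)).2 ⟨F₀ n, ∅⟩ ?_ rfl).1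
  refine Relation.ReflTransGen.single ⟨C 4, C 10, 0, ?_, ?_, Or.inl ⟨rfl, ?_⟩⟩
  · exact ⟨C 4, by simp [F₀], C 10, by simp [F₀], hne, rfl⟩
  · rw [spoly]
    change 0 = S₀ m (F₀ n) (C 6)
    rw [S₀, if_pos ⟨rfl, rfl⟩]
  · have : (∅ : Set (Sym2 (MvPolynomial (Fin n) ℤ))) = (init (F₀ n)).B \ {s(C 4, C 10)} := by
      symm
      rw [Set.sdiff_eq_empty]
      rintro z ⟨f, hf, g, hg, hfg, rfl⟩
      have hf' : f = C 4 ∨ f = C 10 := by simpa [F₀] using hf
      have hg' : g = C 4 ∨ g = C 10 := by simpa [F₀] using hg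
      rcases hf' with rfl | rfl <;> rcases hg' with rfl | rfl
      · exact absurd rfl hfg
      · rfl
      · exact Sym2.eq_swap
      · exact absurd rfl hfg
    rw [this]
    rfl

end Pool.Agent.Results.MP_698df0_al.AlgorithmPrime
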